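import Pool.Agent.Q229.UM.Core
import Pool.Agent.Q229.RatP

/-!
# The dynamic program
-/

set_option autoImplicit false

namespace Q229.UM

open Pool.Agent Pool.Agent.NPC

/-- a longest list among the given ones, if any -/
def pick (l : List (List ℚ)) : List (List ℚ) :=
  (l.filter fun U => l.all fun V => decide (V.length ≤ U.length)).head?.elim [] (fun U => [U])

theorem pick_mem {l : List (List ℚ)} {U : List ℚ} (h : U ∈ pick l) :
    U ∈ l ∧ ∀ V ∈ l, V.length ≤ U.length := by
  unfold pick at h
  cases hh : (l.filter fun U => l.all fun V => decide (V.length ≤ U.length)).head? with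
  | none => rw [hh] at h; simp at h
  | some W =>
    rw [hh] at h
    simp only [Option.elim_some, List.mem_singleton] at h
    subst h
    have := List.mem_of_head? hh
    simpa using this

theorem exists_pick {l : List (List ℚ)} (h : l ≠ []) : ∃ U, U ∈ pick l := by
  obtain ⟨U, hU, hm⟩ : ∃ U ∈ l, ∀ V ∈ l, V.length ≤ U.length := by
    induction l with
    | nil => exact absurd rfl h
    | cons a l ih =>
      by_cases hl : l = []
      · subst hl; exact ⟨a, by simp, by simp⟩
      · obtain ⟨U, hU, hm⟩ := ih hl
        by_cases hle : a.length ≤ U.length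
        · refine ⟨U, by simp [hU], ?_⟩
          intro V hV
          rcases List.mem_cons.1 hV with rfl | hV
          · exact hle
          · exact hm V hV
        · refine ⟨a, by simp, ?_⟩
          intro V hV
          rcases List.mem_cons.1 hV with rfl | hV
          · exact le_rfl
          · have := hm V hV; omega
  unfold pick
  have hmem : U ∈ l.filter fun U => l.all fun V => decide (V.length ≤ U.length) := by
    simp only [List.mem_filter, List.all_eq_true, decide_eq_true_eq]
    exact ⟨hU, hm⟩
  cases hh : (l.filter fun U => l.all fun V => decide (V.length ≤ U.length)).head? with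
  | none =>
    rw [List.head?_eq_none_iff] at hh
    rw [hh] at hmem; simp at hmem
  | some W => exact ⟨W, by simp⟩

theorem pick_length_le (l : List (List ℚ)) : (pick l).length ≤ 1 := by
  unfold pick
  cases (l.filter fun U => l.all fun V => decide (V.length ≤ U.length)).head? <;> simp

/-- test for `Rel` -/
def relB (j : NJob) (u v : ℚ) : Bool := decide (u ≤ j.1 + j.2.2) && decide (j.2.1 ≤ v)

theorem relB_iff (j : NJob) (u v : ℚ) : relB j u v = true ↔ Rel j u v := by
  simp [relB, Rel]

/-- test for `Join` -/
def joinB (J : List NJob) (u v x y : ℚ) : Bool :=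
  decide (x < y) && J.all fun j => !(relB j u v && (decide (x < j.2.1) &&
    decide (j.1 + j.2.2 < y))) || decide (j.2.2 < y - x)

theorem joinB_iff (J : List NJob) (u v x y : ℚ) : joinB J u v x y = true ↔ Join J u v x y := by
  unfold joinB Join
  simp only [Bool.and_eq_true, decide_eq_true_eq, List.all_eq_true, Bool.or_eq_true,
    Bool.not_eq_true', ← Bool.not_eq_true, relB_iff]
  constructor
  · rintro ⟨h1, h2⟩
    refine ⟨h1, fun j hj hr hx hy => ?_⟩
    rcases h2 j hj with h | h
    · exact absurd ⟨hr, hx, hy⟩ h
    · exact h
  · rintro ⟨h1, h2⟩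
    refine ⟨h1, fun j hj => ?_⟩
    by_cases h : Rel j u v ∧ x < j.2.1 ∧ j.1 + j.2.2 < y
    · exact Or.inr (h2 j hj h.1 h.2.1 h.2.2)
    · exact Or.inl h

/-- the candidates for the pair `(u, v)` -/
def cands (J : List NJob) (S : List (List ℚ)) (u v : ℚ) : List (List ℚ) :=
  (if decide (u = v) && J.all (fun j => !relB j u u) then [[u]] else []) ++
  S.flatMap fun U => S.flatMap fun V =>
    if decide (U.head? = some u) && (decide (V.reverse.head? = some v) &&
      joinB J u v (U.reverse.head?.getD 0) (V.head?.getD 0)) then [U ++ V] else []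

/-- one round -/
def step (I : List NJob × List ℚ) (S : List (List ℚ)) : List (List ℚ) :=
  I.2.flatMap fun u => I.2.flatMap fun v => pick (cands I.1 S u v)

/-- `t` rounds -/
def rounds (I : List NJob × List ℚ) (t : ℕ) : List (List ℚ) := (step I)^[t] []

theorem rounds_succ (I : List NJob × List ℚ) (t : ℕ) : rounds I (t + 1) = step I (rounds I t) := by
  unfold rounds
  rw [Function.iterate_succ_apply']

theorem cands_sound {J : List NJob} {T : List ℚ} {S : List (List ℚ)}
    (hS : ∀ U ∈ S, ∃ u v, Good J T u v U) {u v : ℚ} (hu : u ∈ T) {W : List ℚ}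
    (hW : W ∈ cands J S u v) : Good J T u v W := by
  unfold cands at hW
  rw [List.mem_append] at hW
  rcases hW with hW | hW
  · split_ifs at hW with h
    · simp only [List.mem_singleton] at hW
      subst hW
      simp only [Bool.and_eq_true, decide_eq_true_eq, List.all_eq_true, Bool.not_eq_true',
        ← Bool.not_eq_true, relB_iff] at h
      obtain ⟨rfl, h⟩ := h
      exact good_single hu h
    · simp at hW
  · simp only [List.mem_flatMap] at hW
    obtain ⟨U, hU, V, hV, hW⟩ := hW
    split_ifs at hW with h
    · simp only [List.mem_singleton] at hW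
      subst hW
      simp only [Bool.and_eq_true, decide_eq_true_eq, List.head?_reverse, joinB_iff] at h
      obtain ⟨h1, h2, h3⟩ := h
      obtain ⟨a, x, hg⟩ := hS U hU
      obtain ⟨y, b, hg'⟩ := hS V hV
      have e1 : a = u := by have := hg.hd; rw [h1] at this; exact (Option.some.inj this).symm
      have e2 : b = v := by have := hg'.lst; rw [h2] at this; exact (Option.some.inj this).symm
      subst e1
      subst e2
      rw [hg.lst, hg'.hd] at h3
      exact hg.append hg' h3
    · simp at hW

theorem rounds_sound (I : List NJob × List ℚ) (t : ℕ) :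
    ∀ U ∈ rounds I t, ∃ u v, Good I.1 I.2 u v U := by
  induction t with
  | zero => intro U hU; simp [rounds] at hU
  | succ t ih =>
    intro U hU
    rw [rounds_succ] at hU
    unfold step at hU
    simp only [List.mem_flatMap] at hU
    obtain ⟨u, hu, v, hv, hU⟩ := hU
    exact ⟨u, v, cands_sound ih hu (pick_mem hU).1⟩

theorem rounds_complete (I : List NJob × List ℚ) (t : ℕ) : ∀ (u v : ℚ) (U : List ℚ),
    Good I.1 I.2 u v U → U.length ≤ t → ∃ U' ∈ rounds I t, Good I.1 I.2 u v U' ∧
      U.length ≤ U'.length := by
  induction t with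
  | zero =>
    intro u v U h hl
    have : U = [] := List.length_eq_zero_iff.1 (by omega)
    subst this
    simpa using h.hd
  | succ t ih =>
    intro u v U h hl
    have hu : u ∈ I.2 := by
      apply h.sub
      obtain ⟨l, hl'⟩ := List.head?_eq_some_iff.1 h.hd
      rw [hl']; simp
    have hv : v ∈ I.2 := by
      apply h.sub
      obtain ⟨l, hl'⟩ := List.getLast?_eq_some_iff.1 h.lst
      rw [hl']; simp
    -- a candidate of sufficient length
    obtain ⟨W, hW, hlen⟩ : ∃ W ∈ cands I.1 (rounds I t) u v, U.length ≤ W.length := by
      by_cases h1 : U.length ≤ 1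
      · have h0 : U ≠ [] := by rintro rfl; simpa using h.hd
        have h2 : U.length = 1 := by
          have := List.length_pos_iff.2 h0; omega
        obtain ⟨rfl, rfl, h3⟩ := good_one h h2
        refine ⟨[u], ?_, le_rfl⟩
        unfold cands
        rw [List.mem_append]
        left
        rw [if_pos]
        · simp
        · simp only [Bool.and_eq_true, decide_eq_true_eq, List.all_eq_true, Bool.not_eq_true',
            ← Bool.not_eq_true, relB_iff]
          exact ⟨trivial, h3⟩
      · obtain ⟨x, y, U₁, U₂, hU, hn1, hn2, hg1, hg2, hj⟩ := h.split (by omega)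
        have l1 := List.length_pos_iff.2 hn1
        have l2 := List.length_pos_iff.2 hn2
        have hlU : U.length = U₁.length + U₂.length := by rw [hU]; simp
        obtain ⟨V₁, hV₁, hgV₁, hl₁⟩ := ih u x U₁ hg1 (by omega)
        obtain ⟨V₂, hV₂, hgV₂, hl₂⟩ := ih y v U₂ hg2 (by omega)
        refine ⟨V₁ ++ V₂, ?_, by simp; omega⟩
        unfold cands
        rw [List.mem_append]
        right
        simp only [List.mem_flatMap]
        refine ⟨V₁, hV₁, V₂, hV₂, ?_⟩
        rw [if_pos]
        · simp
        · simp only [Bool.and_eq_true, decide_eq_true_eq, List.head?_reverse, joinB_iff]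
          refine ⟨hgV₁.hd, hgV₂.lst, ?_⟩
          rw [hgV₁.lst, hgV₂.hd]
          exact hj
    obtain ⟨P, hP⟩ := exists_pick (l := cands I.1 (rounds I t) u v) (by
      rintro h; rw [h] at hW; simp at hW)
    have hP' := pick_mem hP
    refine ⟨P, ?_, cands_sound (rounds_sound I t) hu hP'.1, hlen.trans (hP'.2 W hW)⟩
    rw [rounds_succ]
    unfold step
    simp only [List.mem_flatMap]
    exact ⟨u, hu, v, hv, hP⟩

theorem rounds_length (I : List NJob × List ℚ) (t : ℕ) :
    (rounds I t).length ≤ I.2.length * I.2.length := by
  cases t with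
  | zero => simp [rounds]
  | succ t =>
    rw [rounds_succ]
    unfold step
    rw [List.length_flatMap]
    have h1 : ∀ u, (I.2.flatMap fun v => pick (cands I.1 (rounds I t) u v)).length ≤
        I.2.length := by
      intro u
      rw [List.length_flatMap]
      refine (List.sum_le_card_nsmul _ 1 ?_).trans (by simp)
      intro x hx
      simp only [List.mem_map] at hx
      obtain ⟨v, _, rfl⟩ := hx
      exact pick_length_le _
    refine (List.sum_le_card_nsmul _ I.2.length ?_).trans (by simp)
    intro x hx
    simp only [List.mem_map] at hx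
    obtain ⟨u, _, rfl⟩ := hx
    exact h1 u

theorem sz_rounds (I : List NJob × List ℚ) (t : ℕ) :
    sz (rounds I t) ≤ (sz I * sz I) * ((sz I * (sz I + 1) + 1) + 1) + 1 := by
  have hT : sz I.2 < sz I := by
    obtain ⟨J, T⟩ := I
    simp only [sz_pair]
    have := sz_pos J
    omega
  have hlen : I.2.length < sz I.2 := length_lt_sz _
  have h1 : ∀ U ∈ rounds I t, sz U ≤ sz I * (sz I + 1) + 1 := by
    intro U hU
    obtain ⟨u, v, hg⟩ := rounds_sound I t U hU
    have hnd : U.Nodup := hg.srt.imp (fun h => ne_of_lt h)
    have hl : U.length ≤ I.2.length := by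
      have := (List.Nodup.subperm hnd hg.sub).length_le
      exact this
    have h2 := sz_le_length_mul U (sz I) (fun a ha => by
      have := sz_le_of_mem (hg.sub ha); omega)
    refine h2.trans ?_
    have h3 : U.length ≤ sz I := by omega
    exact Nat.add_le_add_right (Nat.mul_le_mul_right _ h3) 1
  refine (sz_le_length_mul _ _ h1).trans ?_
  have h4 := rounds_length I t
  have h5 : (rounds I t).length ≤ sz I * sz I :=
    h4.trans (Nat.mul_le_mul (by omega) (by omega))
  exact Nat.add_le_add_right (Nat.mul_le_mul_right _ h5) 1

end Q229.UM
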