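import Pool.Agent.Q229.UM.Alg

/-!
# The dynamic program runs in polynomial time
-/

set_option autoImplicit false

namespace Q229.UM

open Pool.Agent Pool.Agent.NPC

variable {α : Type} [TEnc α]

@[fun_prop]
theorem poly_relB {j : α → NJob} {u v : α → ℚ} (hj : Poly j) (hu : Poly u) (hv : Poly v) :
    Poly (fun a => relB (j a) (u a) (v a)) := by
  unfold relB
  exact Poly.and (RatP.poly_le hu (RatP.poly_add (Poly.fst hj) (Poly.snd (Poly.snd hj))))
    (RatP.poly_le (Poly.fst (Poly.snd hj)) hv)

@[fun_prop]
theorem poly_joinB {J : α → List NJob} {u v x y : α → ℚ} (hJ : Poly J) (hu : Poly u) (hv : Poly v)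
    (hx : Poly x) (hy : Poly y) : Poly (fun a => joinB (J a) (u a) (v a) (x a) (y a)) := by
  unfold joinB
  refine Poly.and (RatP.poly_lt hx hy) (Poly.all (p := fun a j =>
    !(relB j (u a) (v a) && (decide (x a < j.2.1) &&
    decide (j.1 + j.2.2 < y a))) || decide (j.2.2 < y a - x a)) hJ ?_)
  have hu' := hu.comp (Poly.fst (Poly.id (α := α × NJob)))
  have hv' := hv.comp (Poly.fst (Poly.id (α := α × NJob)))
  have hx' := hx.comp (Poly.fst (Poly.id (α := α × NJob)))
  have hy' := hy.comp (Poly.fst (Poly.id (α := α × NJob)))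
  have hj : Poly (fun p : α × NJob => p.2) := Poly.snd Poly.id
  exact Poly.or (Poly.not (Poly.and (poly_relB hj hu' hv')
    (Poly.and (RatP.poly_lt hx' (Poly.fst (Poly.snd hj)))
      (RatP.poly_lt (RatP.poly_add (Poly.fst hj) (Poly.snd (Poly.snd hj))) hy'))))
    (RatP.poly_lt (Poly.snd (Poly.snd hj)) (RatP.poly_sub hy' hx'))

theorem poly_pick {l : α → List (List ℚ)} (hl : Poly l) : Poly (fun a => pick (l a)) := by
  unfold pick
  refine Poly.optElim (Poly.head? (Poly.filter (p := fun a U =>
    (l a).all fun V => decide (V.length ≤ U.length)) hl ?_)) (NPC.Poly.const [])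
    (h := fun _ U => [U]) (Poly.cons (Poly.snd Poly.id) (NPC.Poly.const []))
  refine Poly.all (l := fun p : α × List ℚ => l p.1) (p := fun p V =>
    decide (V.length ≤ p.2.length)) (hl.comp (Poly.fst Poly.id)) ?_
  exact Poly.decide_le (Poly.length (Poly.snd Poly.id)) (Poly.length (Poly.snd (Poly.fst Poly.id)))

theorem poly_cands {J : α → List NJob} {S : α → List (List ℚ)} {u v : α → ℚ} (hJ : Poly J)
    (hS : Poly S) (hu : Poly u) (hv : Poly v) :
    Poly (fun a => cands (J a) (S a) (u a) (v a)) := by
  unfold cands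
  refine Poly.append ?_ ?_
  · refine Poly.ite (p := fun a => (decide (u a = v a) &&
      (J a).all (fun j => !relB j (u a) (u a))) = true) ?_ (Poly.cons (Poly.cons hu
      (NPC.Poly.const [])) (NPC.Poly.const [])) (NPC.Poly.const [])
    refine Poly.dec_eq (Poly.and (Poly.dec_eq hu hv) (Poly.all (p := fun a j =>
      !relB j (u a) (u a)) hJ ?_)) (NPC.Poly.const true)
    have hu' := hu.comp (Poly.fst (Poly.id (α := α × NJob)))
    exact Poly.not (poly_relB (Poly.snd Poly.id) hu' hu')
  · refine Poly.flatMap (F := fun a U => (S a).flatMap fun V =>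
      if decide (U.head? = some (u a)) && (decide (V.reverse.head? = some (v a)) &&
        joinB (J a) (u a) (v a) (U.reverse.head?.getD 0) (V.head?.getD 0)) then [U ++ V] else [])
      hS ?_
    refine Poly.flatMap (l := fun p : α × List ℚ => S p.1) (F := fun p V =>
      if decide (p.2.head? = some (u p.1)) && (decide (V.reverse.head? = some (v p.1)) &&
        joinB (J p.1) (u p.1) (v p.1) (p.2.reverse.head?.getD 0) (V.head?.getD 0))
        then [p.2 ++ V] else [])
      (hS.comp (Poly.fst Poly.id)) ?_
    have ha : Poly (fun q : (α × List ℚ) × List ℚ => q.1.1) := Poly.fst (Poly.fst Poly.id)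
    have hU : Poly (fun q : (α × List ℚ) × List ℚ => q.1.2) := Poly.snd (Poly.fst Poly.id)
    have hV : Poly (fun q : (α × List ℚ) × List ℚ => q.2) := Poly.snd Poly.id
    have hu' := hu.comp ha
    have hv' := hv.comp ha
    have hJ' := hJ.comp ha
    refine Poly.ite (p := fun q : (α × List ℚ) × List ℚ =>
      (decide (q.1.2.head? = some (u q.1.1)) && (decide (q.2.reverse.head? = some (v q.1.1)) &&
        joinB (J q.1.1) (u q.1.1) (v q.1.1) (q.1.2.reverse.head?.getD 0)
          (q.2.head?.getD 0))) = true) ?_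
      (Poly.cons (Poly.append hU hV) (NPC.Poly.const [])) (NPC.Poly.const [])
    refine Poly.dec_eq (Poly.and (Poly.dec_eq (Poly.head? hU) (Poly.some hu'))
      (Poly.and (Poly.dec_eq (Poly.head? (Poly.reverse hV)) (Poly.some hv')) ?_))
      (NPC.Poly.const true)
    exact poly_joinB hJ' hu' hv'
      (Poly.optGetD (Poly.head? (Poly.reverse hU)) (NPC.Poly.const 0))
      (Poly.optGetD (Poly.head? hV) (NPC.Poly.const 0))

theorem poly_step : Poly (fun p : (List NJob × List ℚ) × List (List ℚ) => step p.1 p.2) := by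
  unfold step
  refine Poly.flatMap (l := fun p : (List NJob × List ℚ) × List (List ℚ) => p.1.2)
    (F := fun p u => p.1.2.flatMap fun v => pick (cands p.1.1 p.2 u v))
    (Poly.snd (Poly.fst Poly.id)) ?_
  refine Poly.flatMap (l := fun q : ((List NJob × List ℚ) × List (List ℚ)) × ℚ => q.1.1.2)
    (F := fun q v => pick (cands q.1.1.1 q.1.2 q.2 v))
    (Poly.snd (Poly.fst (Poly.fst Poly.id))) ?_
  refine poly_pick (poly_cands (Poly.fst (Poly.fst (Poly.fst (Poly.fst Poly.id))))
    (Poly.snd (Poly.fst (Poly.fst Poly.id))) (Poly.snd (Poly.fst Poly.id)) (Poly.snd Poly.id))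

theorem poly_rounds : Poly (fun I : List NJob × List ℚ => rounds I I.2.length) := by
  unfold rounds
  refine Poly.iterLen (l := fun I : List NJob × List ℚ => I.2) (s := fun _ => [])
    (F := fun I S => step I S) (Poly.snd Poly.id) (NPC.Poly.const []) poly_step
    ((Polynomial.X * Polynomial.X) * ((Polynomial.X * (Polynomial.X + Polynomial.C 1) +
      Polynomial.C 1) + Polynomial.C 1) + Polynomial.C 1) ?_
  intro I k _
  have := sz_rounds I k
  unfold rounds at this
  simpa using this

end Q229.UM
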