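import Mathlib

/-!
# Choosing uncancelled train paths: the recursive structure
-/

set_option autoImplicit false

namespace Q229.UM

/-- A job in normal form: earliest position `A`, latest position `B`, width `w`. -/
abbrev NJob := ℚ × ℚ × ℚ

/-- the job fits into the open gap `(x, y)` -/
def Fits (j : NJob) (x y : ℚ) : Prop := x < j.2.1 ∧ j.1 + j.2.2 < y ∧ j.2.2 < y - x

instance (j : NJob) (x y : ℚ) : Decidable (Fits j x y) := by unfold Fits; infer_instance

/-- `x` and `y` are consecutive in `U` -/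
def Cons2 (U : List ℚ) (x y : ℚ) : Prop := ∃ l₁ l₂, U = l₁ ++ x :: y :: l₂

/-- the job fits into a gap of `U` -/
def Served (U : List ℚ) (j : NJob) : Prop := ∃ x y, Cons2 U x y ∧ Fits j x y

/-- jobs which have to be served between `u` and `v` -/
def Rel (j : NJob) (u v : ℚ) : Prop := u ≤ j.1 + j.2.2 ∧ j.2.1 ≤ v

instance (j : NJob) (x y : ℚ) : Decidable (Rel j x y) := by unfold Rel; infer_instance

/-- `U` is a strictly increasing list from `u` to `v` serving all relevant jobs -/
structure Good (J : List NJob) (T : List ℚ) (u v : ℚ) (U : List ℚ) : Prop where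
  hd : U.head? = some u
  lst : U.getLast? = some v
  srt : U.Pairwise (· < ·)
  sub : U ⊆ T
  srv : ∀ j ∈ J, Rel j u v → Served U j

/-- the condition for joining two lists at the gap `(x, y)` -/
def Join (J : List NJob) (u v x y : ℚ) : Prop :=
  x < y ∧ ∀ j ∈ J, Rel j u v → x < j.2.1 → j.1 + j.2.2 < y → j.2.2 < y - x

instance (J : List NJob) (u v x y : ℚ) : Decidable (Join J u v x y) := by
  unfold Join; infer_instance

theorem Cons2.append_left {U V : List ℚ} {x y : ℚ} (h : Cons2 V x y) : Cons2 (U ++ V) x y := by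
  obtain ⟨l₁, l₂, rfl⟩ := h
  exact ⟨U ++ l₁, l₂, by simp⟩

theorem Cons2.append_right {U V : List ℚ} {x y : ℚ} (h : Cons2 U x y) : Cons2 (U ++ V) x y := by
  obtain ⟨l₁, l₂, rfl⟩ := h
  exact ⟨l₁, l₂ ++ V, by simp⟩

theorem Cons2.join {U V : List ℚ} {x y : ℚ} (h1 : U.getLast? = some x) (h2 : V.head? = some y) :
    Cons2 (U ++ V) x y := by
  obtain ⟨l, rfl⟩ := List.getLast?_eq_some_iff.1 h1
  obtain ⟨l', rfl⟩ := List.head?_eq_some_iff.1 h2
  exact ⟨l, l', by simp⟩

/-- soundness of joining -/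
theorem Good.append {J : List NJob} {T : List ℚ} {u v x y : ℚ} {U V : List ℚ}
    (hU : Good J T u x U) (hV : Good J T y v V) (h : Join J u v x y) : Good J T u v (U ++ V) := by
  obtain ⟨hxy, hj⟩ := h
  have hne : U ≠ [] := by rintro rfl; simpa using hU.hd
  have hne' : V ≠ [] := by rintro rfl; simpa using hV.hd
  refine ⟨?_, ?_, ?_, ?_, ?_⟩
  · rw [List.head?_append_of_ne_nil _ hne]; exact hU.hd
  · rw [List.getLast?_append_of_ne_nil _ hne']; exact hV.lst
  · rw [List.pairwise_append]
    refine ⟨hU.srt, hV.srt, ?_⟩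
    intro a ha b hb
    have h1 : a ≤ x := by
      obtain ⟨l, hl⟩ := List.getLast?_eq_some_iff.1 hU.lst
      rw [hl] at ha
      rcases List.mem_append.1 ha with h | h
      · have := hU.srt
        rw [hl, List.pairwise_append] at this
        exact (this.2.2 a h x (by simp)).le
      · simp at h; rw [h]
    have h2 : y ≤ b := by
      obtain ⟨l, hl⟩ := List.head?_eq_some_iff.1 hV.hd
      rw [hl] at hb
      rcases List.mem_cons.1 hb with h | h
      · rw [h]
      · have := hV.srt
        rw [hl, List.pairwise_cons] at this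
        exact (this.1 b h).le
    linarith
  · intro a ha
    rcases List.mem_append.1 ha with h | h
    · exact hU.sub h
    · exact hV.sub h
  · intro j hjJ hrel
    by_cases h1 : j.2.1 ≤ x
    · obtain ⟨x', y', hc, hf⟩ := hU.srv j hjJ ⟨hrel.1, h1⟩
      exact ⟨x', y', hc.append_right, hf⟩
    · by_cases h2 : y ≤ j.1 + j.2.2
      · obtain ⟨x', y', hc, hf⟩ := hV.srv j hjJ ⟨h2, hrel.2⟩
        exact ⟨x', y', hc.append_left, hf⟩
      · push Not at h1 h2
        exact ⟨x, y, Cons2.join hU.lst hV.hd, h1, h2, hj j hjJ hrel h1 h2⟩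

theorem good_single {J : List NJob} {T : List ℚ} {u : ℚ} (hu : u ∈ T)
    (h : ∀ j ∈ J, ¬ Rel j u u) : Good J T u u [u] :=
  ⟨rfl, rfl, List.pairwise_singleton _ _, by simpa using hu, fun j hj hr => absurd hr (h j hj)⟩

/-- a list with one element serves nothing -/
theorem not_served_single (u : ℚ) (j : NJob) : ¬ Served [u] j := by
  rintro ⟨x, y, ⟨l₁, l₂, h⟩, _⟩
  have := congrArg List.length h
  simp at this
  omega

theorem good_one {J : List NJob} {T : List ℚ} {u v : ℚ} {U : List ℚ} (h : Good J T u v U)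
    (hl : U.length = 1) : u = v ∧ U = [u] ∧ ∀ j ∈ J, ¬ Rel j u u := by
  obtain ⟨a, rfl⟩ := List.length_eq_one_iff.1 hl
  have h1 : a = u := by simpa using h.hd
  have h2 : a = v := by simpa using h.lst
  subst h1
  subst h2
  exact ⟨rfl, rfl, fun j hj hr => not_served_single _ _ (h.srv j hj hr)⟩

/-- the consecutive pairs -/
theorem exists_max_gap {U : List ℚ} (hl : 2 ≤ U.length) :
    ∃ x y, Cons2 U x y ∧ ∀ x' y', Cons2 U x' y' → y' - x' ≤ y - x := by
  induction U with
  | nil => simp at hl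
  | cons a U ih =>
    match U, ih, hl with
    | [], _, hl => simp at hl
    | [b], _, _ =>
      refine ⟨a, b, ⟨[], [], rfl⟩, ?_⟩
      rintro x' y' ⟨l₁, l₂, h⟩
      have hlen := congrArg List.length h
      simp at hlen
      have h1 : l₁ = [] := List.length_eq_zero_iff.1 (by omega)
      subst h1
      simp at h
      obtain ⟨rfl, rfl, _⟩ := h
      exact le_rfl
    | b :: c :: U, ih, _ =>
      obtain ⟨x, y, hc, hm⟩ := ih (by simp)
      have key : ∀ x' y', Cons2 (a :: b :: c :: U) x' y' →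
          (x' = a ∧ y' = b) ∨ Cons2 (b :: c :: U) x' y' := by
        rintro x' y' ⟨l₁, l₂, h⟩
        cases l₁ with
        | nil => simp at h; exact Or.inl ⟨h.1.symm, h.2.1.symm⟩
        | cons z l₁ => simp at h; exact Or.inr ⟨l₁, l₂, by simpa using h.2⟩
      by_cases hle : b - a ≤ y - x
      · refine ⟨x, y, ?_, ?_⟩
        · exact Cons2.append_left (U := [a]) hc
        · intro x' y' h
          rcases key x' y' h with ⟨rfl, rfl⟩ | h
          · exact hle
          · exact hm x' y' h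
      · refine ⟨a, b, ⟨[], c :: U, rfl⟩, ?_⟩
        intro x' y' h
        rcases key x' y' h with ⟨rfl, rfl⟩ | h
        · exact le_rfl
        · have := hm x' y' h
          linarith

theorem Cons2.mem {U : List ℚ} {x y : ℚ} (h : Cons2 U x y) : x ∈ U ∧ y ∈ U := by
  obtain ⟨l₁, l₂, rfl⟩ := h
  simp

theorem Cons2.lt {U : List ℚ} {x y : ℚ} (h : Cons2 U x y) (hs : U.Pairwise (· < ·)) : x < y := by
  obtain ⟨l₁, l₂, rfl⟩ := h
  rw [List.pairwise_append] at hs
  have := hs.2.1
  rw [List.pairwise_cons] at this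
  exact this.1 y (by simp)

/-- completeness of joining -/
theorem Good.split {J : List NJob} {T : List ℚ} {u v : ℚ} {U : List ℚ} (h : Good J T u v U)
    (hl : 2 ≤ U.length) : ∃ x y U₁ U₂, U = U₁ ++ U₂ ∧ U₁ ≠ [] ∧ U₂ ≠ [] ∧
      Good J T u x U₁ ∧ Good J T y v U₂ ∧ Join J u v x y := by
  obtain ⟨x, y, hc, hm⟩ := exists_max_gap hl
  have hxy := hc.lt h.srt
  obtain ⟨l₁, l₂, hU⟩ := hc
  have hU' : U = (l₁ ++ [x]) ++ (y :: l₂) := by rw [hU]; simp
  have hs := h.srt
  rw [hU', List.pairwise_append] at hs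
  obtain ⟨hs1, hs2, hs3⟩ := hs
  -- location of a consecutive pair
  have loc : ∀ x' y', Cons2 U x' y' → Cons2 (l₁ ++ [x]) x' y' ∨ (x' = x ∧ y' = y) ∨
      Cons2 (y :: l₂) x' y' := by
    rintro x' y' ⟨k₁, k₂, hk⟩
    have heq : (l₁ ++ [x]) ++ (y :: l₂) = k₁ ++ (x' :: y' :: k₂) := by rw [← hU', hk]
    rcases List.append_eq_append_iff.1 heq with ⟨a, ha, hb⟩ | ⟨a, ha, hb⟩
    · -- k₁ = (l₁ ++ [x]) ++ a, y :: l₂ = a ++ x' :: y' :: k₂
      right; right
      exact ⟨a, k₂, hb⟩
    · -- l₁ ++ [x] = k₁ ++ a, x' :: y' :: k₂ = a ++ y :: l₂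
      match a, ha, hb with
      | [], ha, hb =>
        right; right
        exact ⟨[], k₂, by simpa using hb.symm⟩
      | [z], ha, hb =>
        right; left
        have h1 := List.append_inj' ha rfl
        simp at h1 hb
        exact ⟨by rw [hb.1, ← h1.2], hb.2.1⟩
      | z :: z' :: a, ha, hb =>
        left
        simp at hb
        refine ⟨k₁, a, ?_⟩
        rw [ha, hb.1, hb.2.1]
  have h1h : (l₁ ++ [x]).head? = some u := by
    have := h.hd
    rwa [hU', List.head?_append_of_ne_nil _ (by simp)] at this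
  have h2l : (y :: l₂).getLast? = some v := by
    have := h.lst
    rwa [hU', List.getLast?_append_of_ne_nil _ (by simp)] at this
  refine ⟨x, y, l₁ ++ [x], y :: l₂, hU', by simp, by simp, ⟨h1h, by simp, hs1, ?_, ?_⟩,
    ⟨rfl, h2l, hs2, ?_, ?_⟩, hxy, ?_⟩
  · intro a ha; exact h.sub (by rw [hU']; exact List.mem_append_left _ ha)
  · intro j hj hr
    have hxv : x ≤ v := by
      have : x < y := hxy
      obtain ⟨l, hl'⟩ := List.getLast?_eq_some_iff.1 h2l
      have hv : v ∈ y :: l₂ := by rw [hl']; simp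
      exact (hs3 x (by simp) v hv).le
    obtain ⟨x', y', hc', hf⟩ := h.srv j hj ⟨hr.1, hr.2.trans hxv⟩
    have hx' : x' < x := lt_of_lt_of_le hf.1 hr.2
    rcases loc x' y' hc' with h3 | ⟨h3, _⟩ | h3
    · exact ⟨x', y', h3, hf⟩
    · exact absurd h3 hx'.ne
    · have := hs3 x (by simp) x' h3.mem.1
      exact absurd this (by linarith)
  · intro a ha; exact h.sub (by rw [hU']; exact List.mem_append_right _ ha)
  · intro j hj hr
    have huy : u ≤ y := by
      obtain ⟨l, hl'⟩ := List.head?_eq_some_iff.1 h1h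
      have hu : u ∈ l₁ ++ [x] := by rw [hl']; simp
      exact (hs3 u hu y (by simp)).le
    obtain ⟨x', y', hc', hf⟩ := h.srv j hj ⟨huy.trans hr.1, hr.2⟩
    have hy' : y < y' := lt_of_le_of_lt hr.1 hf.2.1
    rcases loc x' y' hc' with h3 | ⟨_, h3⟩ | h3
    · have := hs3 y' h3.mem.2 y (by simp)
      exact absurd this (by linarith)
    · exact absurd h3 hy'.ne'
    · exact ⟨x', y', h3, hf⟩
  · intro j hj hr _ _
    obtain ⟨x', y', hc', hf⟩ := h.srv j hj hr
    exact lt_of_lt_of_le hf.2.2 (hm x' y' hc')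

end Q229.UM
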