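import Pool.Agent.Q229.UM.Main
import Pool.Agent.ER.Rat

/-!
# The algorithm for unidirectional maintenance scheduling runs in polynomial time
-/

set_option autoImplicit false

namespace Q229.UM

open Pool.Agent Pool.Agent.NPC

variable {α : Type} [TEnc α]

theorem poly_nj {I : α → Inst} {j : α → Job} (hI : Poly I) (hj : Poly j) :
    Poly (fun a => nj (I a) (j a)) := by
  have hL : Poly (fun a => (I a).L) := Poly.fst (Poly.fst hI)
  have hδ : Poly (fun a => (I a).δ) := Poly.snd (Poly.fst hI)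
  have hr : Poly (fun a => Job.r (j a)) := Poly.fst hj
  have hd : Poly (fun a => Job.d (j a)) := Poly.fst (Poly.snd hj)
  have hp : Poly (fun a => Job.p (j a)) := Poly.fst (Poly.snd (Poly.snd hj))
  have hls : Poly (fun a => Job.ls (j a)) := Poly.fst (Poly.snd (Poly.snd (Poly.snd hj)))
  have hle : Poly (fun a => Job.le (j a)) := Poly.snd (Poly.snd (Poly.snd (Poly.snd hj)))
  have h1 : Poly (fun a => (I a).δ * Job.le (j a) / (I a).L) :=
    RatP.poly_div (RatP.poly_mul hδ hle) hL
  unfold nj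
  exact Poly.pair (RatP.poly_sub hr h1) (Poly.pair (RatP.poly_sub (RatP.poly_sub hd hp) h1)
    (RatP.poly_add hp (RatP.poly_div (RatP.poly_mul hδ (RatP.poly_sub hle hls)) hL)))

theorem poly_jobs {I : α → Inst} (hI : Poly I) : Poly (fun a => (I a).jobs) :=
  Poly.snd (Poly.snd hI)

theorem poly_ts {I : α → Inst} (hI : Poly I) : Poly (fun a => (I a).ts) :=
  Poly.fst (Poly.snd hI)

theorem poly_nums {I : α → Inst} (hI : Poly I) : Poly (fun a => nums (I a)) := by
  unfold nums
  refine Poly.cons (NPC.Poly.const 0) (Poly.append (poly_ts hI)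
    (Poly.flatMap (F := fun a j => [-(nj (I a) j).1, -(nj (I a) j).2.1, (nj (I a) j).2.2,
    (nj (I a) j).1 + (nj (I a) j).2.2, (nj (I a) j).2.1 + (nj (I a) j).2.2]) (poly_jobs hI) ?_))
  have hn : Poly (fun p : α × Job => nj (I p.1) p.2) :=
    poly_nj (hI.comp (Poly.fst Poly.id)) (Poly.snd Poly.id)
  have h1 := Poly.fst hn
  have h2 := Poly.fst (Poly.snd hn)
  have h3 := Poly.snd (Poly.snd hn)
  exact Poly.cons (RatP.poly_neg h1) (Poly.cons (RatP.poly_neg h2) (Poly.cons h3
    (Poly.cons (RatP.poly_add h1 h3) (Poly.cons (RatP.poly_add h2 h3) (NPC.Poly.const [])))))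

theorem poly_big {I : α → Inst} (hI : Poly I) : Poly (fun a => big (I a)) := by
  unfold big
  refine Poly.optGetD (Poly.head? (Poly.filter (p := fun a x =>
    (nums (I a)).all fun y => decide (y ≤ x)) (poly_nums hI) ?_)) (NPC.Poly.const 0)
  refine Poly.all (l := fun p : α × ℚ => nums (I p.1)) (p := fun p y => decide (y ≤ p.2))
    (poly_nums (hI.comp (Poly.fst Poly.id))) ?_
  exact RatP.poly_le (Poly.snd Poly.id) (Poly.snd (Poly.fst Poly.id))

theorem poly_lo {I : α → Inst} (hI : Poly I) : Poly (fun a => lo (I a)) := by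
  unfold lo
  exact RatP.poly_sub (RatP.poly_neg (poly_big hI)) (NPC.Poly.const 1)

theorem poly_hi {I : α → Inst} (hI : Poly I) : Poly (fun a => hi (I a)) := by
  unfold hi
  exact RatP.poly_add (poly_big hI) (NPC.Poly.const 1)

theorem poly_dpIn : Poly (fun I : Inst => dpIn I) := by
  unfold dpIn
  refine Poly.pair (NPC.Poly.map (F := fun (I : Inst) j => nj I j) (poly_jobs Poly.id)
    (poly_nj (Poly.fst Poly.id) (Poly.snd Poly.id))) ?_
  exact Poly.cons (poly_lo Poly.id) (Poly.append (poly_ts Poly.id)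
    (Poly.cons (poly_hi Poly.id) (NPC.Poly.const [])))

theorem poly_best : Poly (fun I : Inst => best I) := by
  unfold best
  refine Poly.optGetD (Poly.head? (poly_pick (Poly.filter
    (l := fun I : Inst => rounds (dpIn I) (dpIn I).2.length)
    (p := fun I U => decide (U.head? = some (lo I)) && decide (U.reverse.head? = some (hi I)))
    (poly_rounds.comp poly_dpIn) ?_))) (NPC.Poly.const [])
  have hU : Poly (fun p : Inst × List ℚ => p.2) := Poly.snd Poly.id
  have hI : Poly (fun p : Inst × List ℚ => p.1) := Poly.fst Poly.id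
  exact Poly.and (Poly.dec_eq (Poly.head? hU) (Poly.some (poly_lo hI)))
    (Poly.dec_eq (Poly.head? (Poly.reverse hU)) (Poly.some (poly_hi hI)))

theorem poly_pos {j : α → NJob} {x y : α → ℚ} (hj : Poly j) (hx : Poly x) (hy : Poly y) :
    Poly (fun a => pos (j a) (x a) (y a)) := by
  unfold pos
  have h1 := Poly.fst hj
  have h2 := Poly.fst (Poly.snd hj)
  have h3 := Poly.snd (Poly.snd hj)
  refine Poly.ite (RatP.poly_lt hx h1) h1 (RatP.poly_div (RatP.poly_add hx ?_) (NPC.Poly.const 2))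
  exact Poly.ite (RatP.poly_le (RatP.poly_sub hy h3) h2) (RatP.poly_sub hy h3) h2

theorem poly_place : Poly (fun q : (Inst × List ℚ) × Job => place q.1.1 q.1.2 q.2) := by
  unfold place
  have hI : Poly (fun q : (Inst × List ℚ) × Job => q.1.1) := Poly.fst (Poly.fst Poly.id)
  have hU : Poly (fun q : (Inst × List ℚ) × Job => q.1.2) := Poly.snd (Poly.fst Poly.id)
  have hj : Poly (fun q : (Inst × List ℚ) × Job => q.2) := Poly.snd Poly.id
  have hg : Poly (fun q : (Inst × List ℚ) × Job => ((q.1.2.zip q.1.2.tail).filter fun r =>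
      decide (r.1 < (nj q.1.1 q.2).2.1) && (decide ((nj q.1.1 q.2).1 + (nj q.1.1 q.2).2.2 < r.2) &&
        decide ((nj q.1.1 q.2).2.2 < r.2 - r.1))).head?.getD (0, 0)) := by
    refine Poly.optGetD (Poly.head? (Poly.filter
      (l := fun q : (Inst × List ℚ) × Job => q.1.2.zip q.1.2.tail)
      (p := fun q r => decide (r.1 < (nj q.1.1 q.2).2.1) &&
        (decide ((nj q.1.1 q.2).1 + (nj q.1.1 q.2).2.2 < r.2) &&
        decide ((nj q.1.1 q.2).2.2 < r.2 - r.1)))
      (Poly.zip hU (Poly.tail hU)) ?_)) (NPC.Poly.const (0, 0))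
    have hp : Poly (fun p : ((Inst × List ℚ) × Job) × (ℚ × ℚ) => p.1) := Poly.fst Poly.id
    have hn : Poly (fun p : ((Inst × List ℚ) × Job) × (ℚ × ℚ) => nj p.1.1.1 p.1.2) :=
      poly_nj (hI.comp hp) (hj.comp hp)
    have hr1 : Poly (fun p : ((Inst × List ℚ) × Job) × (ℚ × ℚ) => p.2.1) :=
      Poly.fst (Poly.snd Poly.id)
    have hr2 : Poly (fun p : ((Inst × List ℚ) × Job) × (ℚ × ℚ) => p.2.2) :=
      Poly.snd (Poly.snd Poly.id)
    exact Poly.and (RatP.poly_lt hr1 (Poly.fst (Poly.snd hn)))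
      (Poly.and (RatP.poly_lt (RatP.poly_add (Poly.fst hn) (Poly.snd (Poly.snd hn))) hr2)
        (RatP.poly_lt (Poly.snd (Poly.snd hn)) (RatP.poly_sub hr2 hr1)))
  exact poly_pos (poly_nj hI hj) (Poly.fst hg) (Poly.snd hg)

theorem poly_L {I : α → Inst} (hI : Poly I) : Poly (fun a => (I a).L) := Poly.fst (Poly.fst hI)

theorem poly_δ {I : α → Inst} (hI : Poly I) : Poly (fun a => (I a).δ) := Poly.snd (Poly.fst hI)

theorem poly_jle {j : α → Job} (hj : Poly j) : Poly (fun a => Job.le (j a)) :=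
  Poly.snd (Poly.snd (Poly.snd (Poly.snd hj)))

/-- start times from the best list -/
def solF (q : Inst × List ℚ) : List ℚ :=
  q.1.jobs.map fun j => place q.1 q.2 j + q.1.δ * Job.le j / q.1.L

theorem poly_solF : Poly (fun q : Inst × List ℚ => solF q) := by
  unfold solF
  refine NPC.Poly.map (l := fun q : Inst × List ℚ => q.1.jobs) (F := fun (q : Inst × List ℚ) j =>
    place q.1 q.2 j + q.1.δ * Job.le j / q.1.L) (poly_jobs (Poly.fst Poly.id)) ?_
  have hI : Poly (fun p : (Inst × List ℚ) × Job => p.1.1) := Poly.fst (Poly.fst Poly.id)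
  exact RatP.poly_add poly_place (RatP.poly_div (RatP.poly_mul (poly_δ hI)
    (poly_jle (Poly.snd Poly.id))) (poly_L hI))

theorem poly_sol : Poly (fun I : Inst => sol I) := by
  have h := poly_solF.comp (Poly.pair (Poly.id (α := Inst)) poly_best)
  exact h

end Q229.UM
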