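import Pool.Agent.Q229.UM.AlgPoly

/-!
# Unidirectional maintenance scheduling with unevenly spaced paths
-/

set_option autoImplicit false

namespace Q229.UM

open Pool.Agent Pool.Agent.NPC

/-- A maintenance job `(r, d, p, ls, le)`: release time, deadline, processing time, location
interval. -/
abbrev Job := ℚ × ℚ × ℚ × ℚ × ℚ

/-- release time -/
def Job.r (j : Job) : ℚ := j.1
/-- deadline -/
def Job.d (j : Job) : ℚ := j.2.1
/-- processing time -/
def Job.p (j : Job) : ℚ := j.2.2.1
/-- left end of the location interval -/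
def Job.ls (j : Job) : ℚ := j.2.2.2.1
/-- right end of the location interval -/
def Job.le (j : Job) : ℚ := j.2.2.2.2

/-- An instance: length `L` of the corridor, travel time `δ`, start times of the train paths, and
the list of the jobs. -/
abbrev Inst := (ℚ × ℚ) × List ℚ × List Job

/-- length of the corridor -/
def Inst.L (I : Inst) : ℚ := I.1.1
/-- travel time -/
def Inst.δ (I : Inst) : ℚ := I.1.2
/-- start times of the paths -/
def Inst.ts (I : Inst) : List ℚ := I.2.1
/-- jobs -/
def Inst.jobs (I : Inst) : List Job := I.2.2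

/-- The instances of the problem. -/
def Valid (I : Inst) : Prop :=
  0 < I.L ∧ 0 < I.δ ∧ I.ts.Pairwise (· < ·) ∧ (∀ t ∈ I.ts, 0 ≤ t) ∧
  ∀ j ∈ I.jobs, 0 ≤ Job.r j ∧ 0 ≤ Job.d j ∧ 0 ≤ Job.p j ∧ Job.p j ≤ Job.d j - Job.r j ∧
    0 ≤ Job.ls j ∧ Job.ls j ≤ Job.le j ∧ Job.le j ≤ I.L

/-- The path starting at time `t` meets the box of the job `j` if the job starts at time `s`: some
point `(t + θ δ, θ L)` of the path, `0 ≤ θ ≤ 1`, lies in `[s, s + p] × [ls, le]`. -/
def Meets (I : Inst) (j : Job) (s : ℝ) (t : ℚ) : Prop :=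
  ∃ θ : ℝ, 0 ≤ θ ∧ θ ≤ 1 ∧ s ≤ t + θ * I.δ ∧ t + θ * I.δ ≤ s + Job.p j ∧
    Job.ls j ≤ θ * I.L ∧ θ * I.L ≤ Job.le j

/-- A schedule assigns to every job a start time in `[r, d - p]`. -/
def IsSchedule (I : Inst) (s : Fin I.jobs.length → ℝ) : Prop :=
  ∀ i, (Job.r (I.jobs.get i) : ℝ) ≤ s i ∧ s i ≤ Job.d (I.jobs.get i) - Job.p (I.jobs.get i)

open Classical in
/-- The list of the (start times of the) cancelled paths. -/
noncomputable def cancelled (I : Inst) (s : Fin I.jobs.length → ℝ) : List ℚ :=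
  I.ts.filter fun t => decide (∃ i, Meets I (I.jobs.get i) (s i) t)

/-- normal form of a job -/
def nj (I : Inst) (j : Job) : NJob :=
  (Job.r j - I.δ * Job.le j / I.L, Job.d j - Job.p j - I.δ * Job.le j / I.L,
    Job.p j + I.δ * (Job.le j - Job.ls j) / I.L)

theorem meets_iff {I : Inst} (hI : Valid I) {j : Job} (hj : j ∈ I.jobs) (s : ℝ) (t : ℚ) :
    Meets I j s t ↔ (s - (I.δ * Job.le j / I.L : ℚ) ≤ t ∧
      (t : ℝ) ≤ (s - (I.δ * Job.le j / I.L : ℚ)) + ((nj I j).2.2 : ℚ)) := by
  obtain ⟨hL, hδ, _, _, hJ⟩ := hI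
  obtain ⟨_, _, hp, _, hls, hle, hleL⟩ := hJ j hj
  have hL' : (0 : ℝ) < (I.L : ℝ) := by exact_mod_cast hL
  have hδ' : (0 : ℝ) < (I.δ : ℝ) := by exact_mod_cast hδ
  have hp' : (0 : ℝ) ≤ (Job.p j : ℝ) := by exact_mod_cast hp
  have hls' : (0 : ℝ) ≤ (Job.ls j : ℝ) := by exact_mod_cast hls
  have hle' : (Job.ls j : ℝ) ≤ (Job.le j : ℝ) := by exact_mod_cast hle
  have hleL' : (Job.le j : ℝ) ≤ (I.L : ℝ) := by exact_mod_cast hleL
  have e1 : ((nj I j).2.2 : ℝ) = (Job.p j : ℝ) + I.δ * (Job.le j - Job.ls j) / I.L := by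
    simp [nj]
  have e2 : (((I.δ * Job.le j / I.L : ℚ)) : ℝ) = (I.δ : ℝ) * Job.le j / I.L := by push_cast; rfl
  rw [e1, e2]
  have e3 : s - (I.δ : ℝ) * Job.le j / I.L + ((Job.p j : ℝ) + I.δ * (Job.le j - Job.ls j) / I.L) =
      s + Job.p j - I.δ * (Job.ls j / I.L) := by ring
  have e4 : (I.δ : ℝ) * Job.le j / I.L = I.δ * (Job.le j / I.L) := by ring
  rw [e3, e4]
  constructor
  · rintro ⟨θ, h0, h1, h2, h3, h4, h5⟩
    have h6 : θ ≤ Job.le j / I.L := by rw [le_div_iff₀ hL']; exact h5
    have h7 : Job.ls j / I.L ≤ θ := by rw [div_le_iff₀ hL']; exact h4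
    constructor
    · nlinarith
    · nlinarith
  · rintro ⟨h1, h2⟩
    refine ⟨max (Job.ls j / I.L) ((s - t) / I.δ), ?_, ?_, ?_, ?_, ?_, ?_⟩
    · exact le_max_of_le_left (by positivity)
    · apply max_le
      · rw [div_le_one hL']; exact hle'.trans hleL'
      · rw [div_le_one hδ']
        have : (Job.le j : ℝ) / I.L ≤ 1 := by rw [div_le_one hL']; exact hleL'
        nlinarith
    · have : (s - t) / I.δ ≤ max ((Job.ls j : ℝ) / I.L) ((s - t) / I.δ) := le_max_right _ _
      rw [div_le_iff₀ hδ'] at this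
      linarith
    · rcases max_choice ((Job.ls j : ℝ) / I.L) ((s - t) / I.δ) with h | h
      · rw [h]; linarith
      · rw [h, div_mul_cancel₀ _ hδ'.ne']; linarith
    · rw [← div_le_iff₀ hL']; exact le_max_left _ _
    · rw [← le_div_iff₀ hL']
      apply max_le
      · gcongr
      · rw [div_le_iff₀ hδ']; linarith

/-- a position of the job in the gap `(x, y)` -/
def pos (j : NJob) (x y : ℚ) : ℚ :=
  if x < j.1 then j.1 else (x + (if y - j.2.2 ≤ j.2.1 then y - j.2.2 else j.2.1)) / 2

theorem pos_spec {j : NJob} {x y : ℚ} (h1 : j.1 ≤ j.2.1) (h : Fits j x y) :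
    x < pos j x y ∧ pos j x y + j.2.2 < y ∧ j.1 ≤ pos j x y ∧ pos j x y ≤ j.2.1 := by
  obtain ⟨hf1, hf2, hf3⟩ := h
  unfold pos
  split_ifs with h3 h4
  · exact ⟨h3, hf2, le_rfl, h1⟩
  · push Not at h3
    refine ⟨?_, ?_, ?_, ?_⟩ <;> linarith
  · push Not at h3 h4
    refine ⟨?_, ?_, ?_, ?_⟩ <;> linarith

theorem find_gap {a b : ℝ} (hab : a ≤ b) : ∀ (U : List ℚ) (u v : ℚ), U.head? = some u →
    U.getLast? = some v → (u : ℝ) < a → b < v → (∀ x ∈ U, (x : ℝ) < a ∨ b < x) →
    ∃ x y, Cons2 U x y ∧ (x : ℝ) < a ∧ b < y := by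
  intro U
  induction U with
  | nil => intro u v h; simp at h
  | cons c U ih =>
    intro u v h1 h2 h3 h4 h5
    simp at h1
    subst h1
    cases U with
    | nil =>
      simp at h2
      subst h2
      linarith
    | cons e U =>
      rcases h5 e (by simp) with h6 | h6
      · obtain ⟨x, y, hc, hx, hy⟩ := ih e v rfl (by simpa using h2) h6 h4
          (fun x hx => h5 x (by simp [hx]))
        exact ⟨x, y, Cons2.append_left (U := [c]) hc, hx, hy⟩
      · exact ⟨c, e, ⟨[], U, rfl⟩, h3, h6⟩

theorem Cons2.sep {U : List ℚ} {x y : ℚ} (h : Cons2 U x y) (hs : U.Pairwise (· < ·)) :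
    ∀ t ∈ U, t ≤ x ∨ y ≤ t := by
  obtain ⟨l₁, l₂, rfl⟩ := h
  intro t ht
  rw [List.pairwise_append] at hs
  obtain ⟨_, h2, h3⟩ := hs
  rw [List.pairwise_cons, List.pairwise_cons] at h2
  simp only [List.mem_append, List.mem_cons] at ht
  rcases ht with ht | rfl | rfl | ht
  · exact Or.inl (h3 t ht x (by simp)).le
  · exact Or.inl le_rfl
  · exact Or.inr le_rfl
  · exact Or.inr (h2.2.1 t ht).le

theorem mem_zip_tail {U : List ℚ} {x y : ℚ} : (x, y) ∈ U.zip U.tail ↔ Cons2 U x y := by
  induction U with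
  | nil => simp [Cons2]
  | cons a U ih =>
    cases U with
    | nil =>
      simp only [List.tail_cons, List.zip_nil_right, List.not_mem_nil, false_iff]
      rintro ⟨l₁, l₂, h⟩
      have := congrArg List.length h
      simp at this
      omega
    | cons b U =>
      simp only [List.tail_cons] at ih ⊢
      rw [List.zip_cons_cons, List.mem_cons, ih]
      constructor
      · rintro (h | h)
        · rw [Prod.mk.injEq] at h
          obtain ⟨rfl, rfl⟩ := h
          exact ⟨[], U, rfl⟩
        · exact Cons2.append_left (U := [a]) h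
      · rintro ⟨l₁, l₂, h⟩
        cases l₁ with
        | nil => simp at h; left; rw [h.1, h.2.1]
        | cons z l₁ => simp at h; right; exact ⟨l₁, l₂, by simpa using h.2⟩

/-- all relevant numbers -/
def nums (I : Inst) : List ℚ :=
  0 :: (I.ts ++ I.jobs.flatMap fun j => [-(nj I j).1, -(nj I j).2.1, (nj I j).2.2,
    (nj I j).1 + (nj I j).2.2, (nj I j).2.1 + (nj I j).2.2])

/-- a largest of them -/
def big (I : Inst) : ℚ :=
  ((nums I).filter fun x => (nums I).all fun y => decide (y ≤ x)).head?.getD 0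

theorem le_big (I : Inst) : ∀ y ∈ nums I, y ≤ big I := by
  obtain ⟨m, hm, hmax⟩ : ∃ m ∈ nums I, ∀ y ∈ nums I, y ≤ m := by
    have : nums I ≠ [] := by simp [nums]
    obtain ⟨m, hm, hmax⟩ := Finset.exists_max_image (nums I).toFinset id
      ⟨0, by simp [nums]⟩
    exact ⟨m, by simpa using hm, fun y hy => hmax y (by simpa using hy)⟩
  unfold big
  have hmem : m ∈ (nums I).filter fun x => (nums I).all fun y => decide (y ≤ x) := by
    simp only [List.mem_filter, List.all_eq_true, decide_eq_true_eq]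
    exact ⟨hm, hmax⟩
  cases hh : ((nums I).filter fun x => (nums I).all fun y => decide (y ≤ x)).head? with
  | none =>
    rw [List.head?_eq_none_iff] at hh
    rw [hh] at hmem; simp at hmem
  | some W =>
    have := List.mem_of_head? hh
    simp only [List.mem_filter, List.all_eq_true, decide_eq_true_eq] at this
    simpa using this.2

/-- lower sentinel -/
def lo (I : Inst) : ℚ := -big I - 1
/-- upper sentinel -/
def hi (I : Inst) : ℚ := big I + 1

/-- input of the dynamic program -/
def dpIn (I : Inst) : List NJob × List ℚ := (I.jobs.map (nj I), lo I :: (I.ts ++ [hi I]))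

/-- an optimal set of kept paths (with the two sentinels) -/
def best (I : Inst) : List ℚ :=
  (pick ((rounds (dpIn I) (dpIn I).2.length).filter fun U =>
    decide (U.head? = some (lo I)) && decide (U.reverse.head? = some (hi I)))).head?.getD []

/-- the position chosen for a job -/
def place (I : Inst) (U : List ℚ) (j : Job) : ℚ :=
  let g := ((U.zip U.tail).filter fun q => decide (q.1 < (nj I j).2.1) &&
    (decide ((nj I j).1 + (nj I j).2.2 < q.2) && decide ((nj I j).2.2 < q.2 - q.1))).head?.getD (0, 0)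
  pos (nj I j) g.1 g.2

/-- the start times computed by the algorithm -/
def sol (I : Inst) : List ℚ := I.jobs.map fun j => place I (best I) j + I.δ * Job.le j / I.L

section

variable {I : Inst}

theorem bounds (hI : Valid I) : 0 ≤ big I ∧ (∀ t ∈ I.ts, lo I < t ∧ t < hi I) ∧
    (∀ j ∈ I.jobs, (nj I j).1 ≤ (nj I j).2.1 ∧ 0 ≤ (nj I j).2.2 ∧ lo I < (nj I j).1 ∧
      lo I < (nj I j).2.1 ∧ (nj I j).1 + (nj I j).2.2 < hi I ∧
      (nj I j).2.1 + (nj I j).2.2 < hi I) := by
  have hb := le_big I
  have h0 : 0 ≤ big I := hb 0 (by simp [nums])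
  refine ⟨h0, ?_, ?_⟩
  · intro t ht
    have h1 : t ≤ big I := hb t (by simp [nums, ht])
    have h2 := hI.2.2.2.1 t ht
    unfold lo hi
    constructor <;> linarith
  · intro j hj
    have hm : ∀ y ∈ [-(nj I j).1, -(nj I j).2.1, (nj I j).2.2,
        (nj I j).1 + (nj I j).2.2, (nj I j).2.1 + (nj I j).2.2], y ≤ big I := by
      intro y hy
      apply hb
      unfold nums
      rw [List.mem_cons, List.mem_append, List.mem_flatMap]
      exact Or.inr (Or.inr ⟨j, hj, hy⟩)
    have a1 := hm _ (by simp : -(nj I j).1 ∈ _)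
    have a2 := hm (-(nj I j).2.1) (by simp)
    have a3 := hm ((nj I j).1 + (nj I j).2.2) (by simp)
    have a4 := hm ((nj I j).2.1 + (nj I j).2.2) (by simp)
    obtain ⟨hL, hδ, _, _, hJ⟩ := hI
    obtain ⟨_, _, hp, hpd, hls, hle, hleL⟩ := hJ j hj
    refine ⟨?_, ?_, ?_, ?_, ?_, ?_⟩
    · simp only [nj]; linarith
    · simp only [nj]
      have : 0 ≤ I.δ * (Job.le j - Job.ls j) / I.L :=
        div_nonneg (mul_nonneg hδ.le (by linarith)) hL.le
      linarith
    · unfold lo; linarith
    · unfold lo; linarith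
    · unfold hi; linarith
    · unfold hi; linarith

open Classical in
/-- the kept paths of a schedule give a good list -/
theorem good_of_schedule (hI : Valid I) (s : Fin I.jobs.length → ℝ) (hs : IsSchedule I s) :
    Good (dpIn I).1 (dpIn I).2 (lo I) (hi I)
      (lo I :: ((I.ts.filter fun t => !decide (∃ i, Meets I (I.jobs.get i) (s i) t)) ++
        [hi I])) := by
  obtain ⟨hb0, hbt, hbj⟩ := bounds hI
  set V := I.ts.filter fun t => !decide (∃ i, Meets I (I.jobs.get i) (s i) t) with hV
  have hVsub : ∀ t ∈ V, t ∈ I.ts ∧ ∀ i, ¬ Meets I (I.jobs.get i) (s i) t := by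
    intro t ht
    simp only [hV, List.mem_filter, Bool.not_eq_true', decide_eq_false_iff_not, not_exists] at ht
    exact ht
  have hlohi : lo I < hi I := by unfold lo hi; linarith
  refine ⟨rfl, ?_, ?_, ?_, ?_⟩
  · exact List.getLast?_eq_some_iff.2 ⟨lo I :: V, by simp⟩
  · rw [List.pairwise_cons]
    constructor
    · intro t ht
      rcases List.mem_append.1 ht with h | h
      · exact (hbt t (hVsub t h).1).1
      · simp at h; rw [h]; exact hlohi
    · rw [List.pairwise_append]
      refine ⟨hI.2.2.1.filter _, by simp, ?_⟩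
      intro a ha b hb
      simp at hb
      rw [hb]
      exact (hbt a (hVsub a ha).1).2
  · intro t ht
    simp only [dpIn, List.mem_cons, List.mem_append] at ht ⊢
    rcases ht with h | h | h
    · exact Or.inl h
    · exact Or.inr (Or.inl (hVsub t h).1)
    · exact Or.inr (Or.inr h)
  · intro n hn _
    simp only [dpIn, List.mem_map] at hn
    obtain ⟨j, hj, rfl⟩ := hn
    obtain ⟨i, hi'⟩ := List.get_of_mem hj
    have hj' : I.jobs.get i ∈ I.jobs := List.get_mem _ _
    obtain ⟨c1, c2, c3, c4, c5, c6⟩ := hbj j hj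
    obtain ⟨s1, s2⟩ := hs i
    rw [hi'] at s1 s2
    set a : ℝ := s i - (I.δ * Job.le j / I.L : ℚ) with ha
    have hA : (((nj I j).1 : ℚ) : ℝ) ≤ a := by
      rw [ha]; simp only [nj]; push_cast; linarith
    have hB : a ≤ (((nj I j).2.1 : ℚ) : ℝ) := by
      rw [ha]; simp only [nj]; push_cast; linarith
    have hw : (0 : ℝ) ≤ (((nj I j).2.2 : ℚ) : ℝ) := by exact_mod_cast c2
    obtain ⟨x, y, hc, hx, hy⟩ := find_gap (a := a) (b := a + (((nj I j).2.2 : ℚ) : ℝ))
      (by linarith) (lo I :: (V ++ [hi I])) (lo I) (hi I) rfl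
      (List.getLast?_eq_some_iff.2 ⟨lo I :: V, by simp⟩) (by
        have : ((lo I : ℚ) : ℝ) < (((nj I j).1 : ℚ) : ℝ) := by exact_mod_cast c3
        linarith) (by
        have : (((nj I j).2.1 : ℚ) : ℝ) + (((nj I j).2.2 : ℚ) : ℝ) < ((hi I : ℚ) : ℝ) := by
          exact_mod_cast c6
        linarith) (by
        intro t ht
        simp only [List.mem_cons, List.mem_append, List.not_mem_nil, or_false] at ht
        rcases ht with h | h | h
        · left
          rw [h]
          have : ((lo I : ℚ) : ℝ) < (((nj I j).1 : ℚ) : ℝ) := by exact_mod_cast c3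
          linarith
        · have h1 := (hVsub t h).2 i
          rw [hi', meets_iff hI hj, not_and_or, not_le, not_le] at h1
          exact h1
        · right
          rw [h]
          have : (((nj I j).2.1 : ℚ) : ℝ) + (((nj I j).2.2 : ℚ) : ℝ) < ((hi I : ℚ) : ℝ) := by
            exact_mod_cast c6
          linarith)
    refine ⟨x, y, hc, ?_, ?_, ?_⟩
    · have : (x : ℝ) < (((nj I j).2.1 : ℚ) : ℝ) := by linarith
      exact_mod_cast this
    · have : (((nj I j).1 : ℚ) : ℝ) + (((nj I j).2.2 : ℚ) : ℝ) < (y : ℝ) := by linarith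
      exact_mod_cast this
    · have : (((nj I j).2.2 : ℚ) : ℝ) < (y : ℝ) - x := by linarith
      exact_mod_cast this

theorem best_spec (hI : Valid I) : Good (dpIn I).1 (dpIn I).2 (lo I) (hi I) (best I) ∧
    ∀ U, Good (dpIn I).1 (dpIn I).2 (lo I) (hi I) U → U.length ≤ (best I).length := by
  set F := (rounds (dpIn I) (dpIn I).2.length).filter fun U =>
    decide (U.head? = some (lo I)) && decide (U.reverse.head? = some (hi I)) with hF
  have hFgood : ∀ W ∈ F, Good (dpIn I).1 (dpIn I).2 (lo I) (hi I) W := by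
    intro W hW
    simp only [hF, List.mem_filter, Bool.and_eq_true, decide_eq_true_eq,
      List.head?_reverse] at hW
    obtain ⟨hW, h1, h2⟩ := hW
    obtain ⟨u, v, hg⟩ := rounds_sound _ _ W hW
    have e1 : u = lo I := by have := hg.hd; rw [h1] at this; exact (Option.some.inj this).symm
    have e2 : v = hi I := by have := hg.lst; rw [h2] at this; exact (Option.some.inj this).symm
    rw [e1, e2] at hg
    exact hg
  have hcompl : ∀ U, Good (dpIn I).1 (dpIn I).2 (lo I) (hi I) U →
      ∃ W ∈ F, U.length ≤ W.length := by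
    intro U hU
    have hl : U.length ≤ (dpIn I).2.length :=
      (List.Nodup.subperm (hU.srt.imp (fun h => ne_of_lt h)) hU.sub).length_le
    obtain ⟨W, hW, hg, hlen⟩ := rounds_complete (dpIn I) _ _ _ U hU hl
    refine ⟨W, ?_, hlen⟩
    simp only [hF, List.mem_filter, Bool.and_eq_true, decide_eq_true_eq, List.head?_reverse]
    exact ⟨hW, hg.hd, hg.lst⟩
  -- some good list exists
  have hs0 : IsSchedule I (fun i => (Job.r (I.jobs.get i) : ℝ)) := by
    intro i
    refine ⟨le_rfl, ?_⟩
    have := (hI.2.2.2.2 _ (List.get_mem I.jobs i)).2.2.2.1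
    have h' : (Job.p (I.jobs.get i) : ℝ) ≤ Job.d (I.jobs.get i) - Job.r (I.jobs.get i) := by
      exact_mod_cast this
    linarith
  obtain ⟨W0, hW0, _⟩ := hcompl _ (good_of_schedule hI _ hs0)
  obtain ⟨P, hP⟩ := exists_pick (l := F) (by rintro h; rw [h] at hW0; simp at hW0)
  have hbest : best I ∈ pick F := by
    unfold best
    rw [← hF]
    cases hh : (pick F).head? with
    | none =>
      rw [List.head?_eq_none_iff] at hh
      rw [hh] at hP; simp at hP
    | some Q => simpa using List.mem_of_head? hh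
  obtain ⟨hb1, hb2⟩ := pick_mem hbest
  refine ⟨hFgood _ hb1, fun U hU => ?_⟩
  obtain ⟨W, hW, hlen⟩ := hcompl U hU
  exact hlen.trans (hb2 W hW)

theorem place_spec (hI : Valid I) {j : Job} (hj : j ∈ I.jobs) :
    (nj I j).1 ≤ place I (best I) j ∧ place I (best I) j ≤ (nj I j).2.1 ∧
      ∀ t ∈ best I, t < place I (best I) j ∨ place I (best I) j + (nj I j).2.2 < t := by
  obtain ⟨hb0, hbt, hbj⟩ := bounds hI
  obtain ⟨c1, c2, c3, c4, c5, c6⟩ := hbj j hj
  obtain ⟨hg, _⟩ := best_spec hI
  obtain ⟨x, y, hc, hf⟩ := hg.srv (nj I j) (by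
    simp only [dpIn, List.mem_map]; exact ⟨j, hj, rfl⟩) ⟨by linarith, by linarith⟩
  set F := ((best I).zip (best I).tail).filter fun q => decide (q.1 < (nj I j).2.1) &&
    (decide ((nj I j).1 + (nj I j).2.2 < q.2) && decide ((nj I j).2.2 < q.2 - q.1)) with hF
  have hmem : (x, y) ∈ F := by
    simp only [hF, List.mem_filter, Bool.and_eq_true, decide_eq_true_eq]
    exact ⟨mem_zip_tail.2 hc, hf.1, hf.2.1, hf.2.2⟩
  obtain ⟨g, hg'⟩ : ∃ g, F.head? = some g := by
    cases hh : F.head? with
    | none => rw [List.head?_eq_none_iff] at hh; rw [hh] at hmem; simp at hmem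
    | some g => exact ⟨g, rfl⟩
  have hgF := List.mem_of_head? hg'
  simp only [hF, List.mem_filter, Bool.and_eq_true, decide_eq_true_eq] at hgF
  obtain ⟨g1, g2, g3, g4⟩ := hgF
  have hc' : Cons2 (best I) g.1 g.2 := mem_zip_tail.1 g1
  have hpl : place I (best I) j = pos (nj I j) g.1 g.2 := by
    unfold place
    rw [← hF, hg']
    rfl
  obtain ⟨p1, p2, p3, p4⟩ := pos_spec c1 (⟨g2, g3, g4⟩ : Fits (nj I j) g.1 g.2)
  rw [hpl]
  refine ⟨p3, p4, fun t ht => ?_⟩
  rcases hc'.sep hg.srt t ht with h | h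
  · left; linarith
  · right; linarith

theorem sol_length (I : Inst) : (sol I).length = I.jobs.length := by simp [sol]

theorem sol_getD (i : Fin I.jobs.length) : (sol I).getD i 0 =
    place I (best I) (I.jobs.get i) + I.δ * Job.le (I.jobs.get i) / I.L := by
  unfold sol
  rw [List.getD_eq_getElem?_getD, List.getElem?_map]
  have : I.jobs[(i : ℕ)]? = some (I.jobs.get i) := by simp
  rw [this]
  rfl

theorem sol_schedule (hI : Valid I) : IsSchedule I (fun i => (((sol I).getD i 0 : ℚ) : ℝ)) := by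
  intro i
  obtain ⟨h1, h2, _⟩ := place_spec hI (List.get_mem I.jobs i)
  simp only [sol_getD]
  simp only [nj] at h1 h2
  constructor
  · have : Job.r (I.jobs.get i) ≤
        place I (best I) (I.jobs.get i) + I.δ * Job.le (I.jobs.get i) / I.L := by linarith
    exact_mod_cast this
  · have : place I (best I) (I.jobs.get i) + I.δ * Job.le (I.jobs.get i) / I.L ≤
        Job.d (I.jobs.get i) - Job.p (I.jobs.get i) := by linarith
    exact_mod_cast this

open Classical in
theorem sol_optimal (hI : Valid I) (s : Fin I.jobs.length → ℝ) (hs : IsSchedule I s) :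
    (cancelled I (fun i => (((sol I).getD i 0 : ℚ) : ℝ))).length ≤ (cancelled I s).length := by
  obtain ⟨hg, hopt⟩ := best_spec hI
  have h1 := hopt _ (good_of_schedule hI s hs)
  set s' : Fin I.jobs.length → ℝ := fun i => (((sol I).getD i 0 : ℚ) : ℝ) with hs'
  -- kept paths of our schedule
  obtain ⟨hb0, hbt, hbj⟩ := bounds hI
  have hlohi : lo I < hi I := by unfold lo hi; linarith
  have hmid : ∃ mid : List ℚ, best I = lo I :: (mid ++ [hi I]) := by
    obtain ⟨l, hl⟩ := List.head?_eq_some_iff.1 hg.hd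
    have hlast := hg.lst
    rw [hl] at hlast
    cases l with
    | nil => simp at hlast; exact absurd hlast hlohi.ne
    | cons b l =>
      have : (b :: l).getLast? = some (hi I) := by simpa using hlast
      obtain ⟨m, hm⟩ := List.getLast?_eq_some_iff.1 this
      exact ⟨m, by rw [hl, hm]⟩
  obtain ⟨mid, hmid⟩ := hmid
  have hsrt := hg.srt
  rw [hmid, List.pairwise_cons, List.pairwise_append] at hsrt
  obtain ⟨q1, q2, _, q4⟩ := hsrt
  have hkept : ∀ t ∈ mid, t ∈ I.ts.filter fun t =>
      !decide (∃ i, Meets I (I.jobs.get i) (s' i) t) := by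
    intro t ht
    have htb : t ∈ best I := by rw [hmid]; simp [ht]
    have ht1 : lo I < t := q1 t (by simp [ht])
    have ht2 : t < hi I := q4 t ht (hi I) (by simp)
    have htT := hg.sub htb
    simp only [dpIn, List.mem_cons, List.mem_append, List.not_mem_nil, or_false] at htT
    simp only [List.mem_filter, Bool.not_eq_true', decide_eq_false_iff_not, not_exists]
    refine ⟨?_, ?_⟩
    · rcases htT with h | h | h
      · exact absurd h ht1.ne'
      · exact h
      · exact absurd h ht2.ne
    · intro i hm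
      have hj : I.jobs.get i ∈ I.jobs := List.get_mem _ _
      rw [meets_iff hI hj] at hm
      obtain ⟨_, _, h3⟩ := place_spec hI hj
      have e : s' i - ((I.δ * Job.le (I.jobs.get i) / I.L : ℚ) : ℝ) =
          ((place I (best I) (I.jobs.get i) : ℚ) : ℝ) := by
        simp only [hs', sol_getD]
        push_cast
        ring
      rw [e] at hm
      rcases h3 t htb with h4 | h4
      · have : (t : ℝ) < ((place I (best I) (I.jobs.get i) : ℚ) : ℝ) := by exact_mod_cast h4
        linarith [hm.1]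
      · have : ((place I (best I) (I.jobs.get i) : ℚ) : ℝ) +
            (((nj I (I.jobs.get i)).2.2 : ℚ) : ℝ) < (t : ℝ) := by exact_mod_cast h4
        linarith [hm.2]
  have hlen2 : mid.length ≤ (I.ts.filter fun t =>
      !decide (∃ i, Meets I (I.jobs.get i) (s' i) t)).length :=
    (List.Nodup.subperm (q2.imp (fun h => ne_of_lt h)) (fun t ht => hkept t ht)).length_le
  have e1 : ∀ σ : Fin I.jobs.length → ℝ, (cancelled I σ).length + (I.ts.filter fun t =>
      !decide (∃ i, Meets I (I.jobs.get i) (σ i) t)).length = I.ts.length := by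
    intro σ
    unfold cancelled
    rw [← List.length_append]
    exact (List.filter_append_perm _ I.ts).length_eq
  have e2 := e1 s
  have e3 := e1 s'
  rw [hmid] at h1
  simp only [List.length_cons, List.length_append, List.length_nil] at h1
  omega

end

end Q229.UM
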